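import Mathlib

set_option autoImplicit false

namespace Pool.Agent.Results.MP_fe24f9_co.TwoMaxDegreeForest

open Finset

open Classical in
/-- The degree of `v` in `G - B`: the number of neighbours of `v` outside `B`. -/
noncomputable def delDeg {V : Type} [Fintype V] (G : SimpleGraph V) (B : Finset V) (v : V) : ℕ :=
  (univ.filter (fun w => G.Adj v w ∧ w ∉ B)).card

open Classical in
/-- `G - B` has fewer than two vertices, or at least two vertices of `G - B` have the maximum
degree of `G - B`. -/
def Equated {V : Type} [Fintype V] (G : SimpleGraph V) (B : Finset V) : Prop :=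
  (univ \ B).card < 2 ∨
    ∃ u v : V, u ≠ v ∧ u ∉ B ∧ v ∉ B ∧ delDeg G B u = delDeg G B v ∧
      ∀ w : V, w ∉ B → delDeg G B w ≤ delDeg G B u

/-- The least number of vertices whose deletion leaves fewer than two vertices or at least two
vertices of maximum degree. -/
noncomputable def f {V : Type} [Fintype V] (G : SimpleGraph V) : ℕ :=
  sInf {k : ℕ | ∃ B : Finset V, B.card = k ∧ Equated G B}

/-- degrees of the extremal hubs -/
def ee : ℕ → ℕ
  | 0 => 2
  | k + 1 => ee k + (k + 2)

/-- partial sums -/
def ss (k : ℕ) : ℕ := ∑ j ∈ range (k + 1), ee j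

lemma two_ee (k : ℕ) : 2 * ee k = k ^ 2 + 3 * k + 4 := by
  induction k with
  | zero => simp [ee]
  | succ k ih => simp only [ee]; nlinarith [ih]

lemma ss_succ (k : ℕ) : ss (k + 1) = ss k + ee (k + 1) := by
  simp [ss, Finset.sum_range_succ]

lemma six_ss (k : ℕ) : 6 * ss k = k ^ 3 + 6 * k ^ 2 + 17 * k + 12 := by
  induction k with
  | zero => simp [ss, ee]
  | succ k ih =>
    rw [ss_succ]
    have h := two_ee (k + 1)
    nlinarith [ih, h]

lemma ss_eq (k : ℕ) : ss k = (k ^ 3 + 6 * k ^ 2 + 17 * k + 12) / 6 := by
  have h := six_ss k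
  omega

lemma ee_ge_two (k : ℕ) : 2 ≤ ee k := by
  induction k with
  | zero => simp [ee]
  | succ k ih => simp only [ee]; omega

section upper

variable {V : Type} [Fintype V]

open Classical in
/-- number of edges of `G - D` -/
noncomputable def edg (G : SimpleGraph V) (D : Finset V) : ℕ :=
  (univ.filter (fun e : Sym2 V => e ∈ G.edgeSet ∧ ∀ x ∈ e, x ∉ D)).card

lemma delDeg_anti (G : SimpleGraph V) {B D : Finset V} (h : D ⊆ B) (v : V) :
    delDeg G B v ≤ delDeg G D v := by
  classical
  unfold delDeg
  apply Finset.card_le_card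
  intro w hw
  simp only [mem_filter, mem_univ, true_and] at hw ⊢
  exact ⟨hw.1, fun h' => hw.2 (h h')⟩

open Classical in
lemma edg_insert (G : SimpleGraph V) (D : Finset V) (v : V) (hv : v ∉ D) :
    edg G (insert v D) + delDeg G D v ≤ edg G D := by
  unfold edg delDeg
  have hinj : ((univ.filter (fun w => G.Adj v w ∧ w ∉ D)).image (fun w => s(v, w))).card
      = (univ.filter (fun w => G.Adj v w ∧ w ∉ D)).card := by
    apply Finset.card_image_of_injOn
    intro a _ b _ hab
    simp only [Sym2.eq_iff, true_and] at hab
    rcases hab with h | ⟨h1, h2⟩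
    · exact h
    · exact h2.trans h1
  rw [← hinj, ← Finset.card_union_of_disjoint]
  · apply Finset.card_le_card
    intro e he
    simp only [mem_union, mem_filter, mem_univ, true_and, mem_image] at he ⊢
    rcases he with ⟨h1, h2⟩ | ⟨w, ⟨h1, h2⟩, rfl⟩
    · exact ⟨h1, fun x hx hxD => h2 x hx (Finset.mem_insert_of_mem hxD)⟩
    · refine ⟨h1, ?_⟩
      intro x hx
      rw [Sym2.mem_iff] at hx
      rcases hx with rfl | rfl
      · exact hv
      · exact h2
  · rw [Finset.disjoint_left]
    intro e he he'
    simp only [mem_filter, mem_univ, true_and, mem_image] at he he'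
    obtain ⟨w, _, rfl⟩ := he'
    exact he.2 v (Sym2.mem_mk_left v w) (Finset.mem_insert_self v D)

omit [Fintype V] in
/-- in a forest two distinct vertices are joined by at most one path of length at most two -/
lemma near_unique (G : SimpleGraph V) (hG : G.IsAcyclic) {v u a b : V} (hvu : v ≠ u)
    (ha : G.Adj v a) (ha' : a = u ∨ G.Adj u a) (hb : G.Adj v b) (hb' : b = u ∨ G.Adj u b) :
    a = b := by
  classical
  have key : ∀ c : V, G.Adj v c → (c = u ∨ G.Adj u c) →
      ∃ p : G.Walk v u, p.IsPath ∧ p.snd = c := by
    intro c hc hc'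
    by_cases hcu : c = u
    · subst hcu
      refine ⟨SimpleGraph.Walk.cons hc SimpleGraph.Walk.nil, ?_, by simp⟩
      simp [hvu]
    · have h2 : G.Adj c u := by
        rcases hc' with h | h
        · exact absurd h hcu
        · exact h.symm
      refine ⟨SimpleGraph.Walk.cons hc (SimpleGraph.Walk.cons h2 SimpleGraph.Walk.nil), ?_, by simp⟩
      simp [hvu, hcu, hc.ne]
  obtain ⟨p, hp, hpa⟩ := key a ha ha'
  obtain ⟨q, hq, hqb⟩ := key b hb hb'
  have h := (hG.subsingleton_path v u).elim ⟨p, hp⟩ ⟨q, hq⟩
  have h' : p = q := by simpa using congrArg Subtype.val h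
  rw [← hpa, ← hqb, h']

open Classical in
/-- the main induction -/
lemma main_ind (G : SimpleGraph V) (hG : G.IsAcyclic) (t : ℕ) :
    ∀ k : ℕ, ∀ D : Finset V, D.card + k ≤ t →
      (∀ B : Finset V, D ⊆ B → B.card ≤ t → ¬ Equated G B) →
      (∃ v, v ∉ D ∧ ee k ≤ delDeg G D v) ∧ ss k ≤ edg G D := by
  intro k
  induction k with
  | zero =>
    intro D hD hB
    have hnot := hB D (Finset.Subset.refl _) (by omega)
    unfold Equated at hnot
    push Not at hnot
    obtain ⟨hcard, hmax⟩ := hnot
    have hne : (univ \ D).Nonempty := by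
      rw [← Finset.card_pos]; omega
    obtain ⟨v, hv, hvmax⟩ := Finset.exists_max_image (univ \ D) (fun w => delDeg G D w) hne
    have hvD : v ∉ D := by simpa using hv
    have hvmax' : ∀ w, w ∉ D → delDeg G D w ≤ delDeg G D v := by
      intro w hw; exact hvmax w (by simpa using hw)
    have h2 : 2 ≤ delDeg G D v := by
      by_contra hlt
      have h01 : delDeg G D v = 0 ∨ delDeg G D v = 1 := by omega
      rcases h01 with h0 | h1
      · have : ∃ w ∈ univ \ D, w ≠ v := by
          by_contra hno
          push Not at hno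
          have : (univ \ D) ⊆ {v} := by
            intro w hw; rw [Finset.mem_singleton]; exact hno w hw
          have := Finset.card_le_card this
          simp at this
          omega
        obtain ⟨w, hw, hwv⟩ := this
        have hwD : w ∉ D := by simpa using hw
        obtain ⟨z, hz, hz2⟩ := hmax v w (Ne.symm hwv) hvD hwD
          (by have := hvmax' w hwD; omega)
        have := hvmax' z hz
        omega
      · have hpos : 0 < delDeg G D v := by omega
        unfold delDeg at hpos
        rw [Finset.card_pos] at hpos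
        obtain ⟨w, hw⟩ := hpos
        simp only [mem_filter, mem_univ, true_and] at hw
        have hw1 : 0 < delDeg G D w := by
          unfold delDeg
          rw [Finset.card_pos]
          exact ⟨v, by simp only [mem_filter, mem_univ, true_and]; exact ⟨hw.1.symm, hvD⟩⟩
        have := hvmax' w hw.2
        obtain ⟨z, hz, hz2⟩ := hmax v w hw.1.ne hvD hw.2 (by omega)
        have := hvmax' z hz
        omega
    refine ⟨⟨v, hvD, by simpa [ee] using h2⟩, ?_⟩
    have := edg_insert G D v hvD
    simp only [ss, zero_add, Finset.range_one, Finset.sum_singleton, ee]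
    omega
  | succ k ih =>
    intro D hD hB
    have hnot := hB D (Finset.Subset.refl _) (by omega)
    unfold Equated at hnot
    push Not at hnot
    obtain ⟨hcard, hmax⟩ := hnot
    have hne : (univ \ D).Nonempty := by
      rw [← Finset.card_pos]; omega
    obtain ⟨v, hv, hvmax⟩ := Finset.exists_max_image (univ \ D) (fun w => delDeg G D w) hne
    have hvD : v ∉ D := by simpa using hv
    have hvmax' : ∀ w, w ∉ D → delDeg G D w ≤ delDeg G D v := by
      intro w hw; exact hvmax w (by simpa using hw)
    obtain ⟨⟨u0, hu0, hu0e⟩, hss⟩ := ih (insert v D)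
      (by rw [Finset.card_insert_of_notMem hvD]; omega)
      (fun B hDB hBt => hB B ((Finset.subset_insert v D).trans hDB) hBt)
    -- second largest
    have hne2 : (univ \ insert v D).Nonempty := ⟨u0, by simpa using hu0⟩
    obtain ⟨u, hu, humax⟩ := Finset.exists_max_image (univ \ insert v D) (fun w => delDeg G D w) hne2
    have huD : u ∉ insert v D := by simpa using hu
    have huv : u ≠ v := fun h => huD (by rw [h]; exact Finset.mem_insert_self v D)
    have huD' : u ∉ D := fun h => huD (Finset.mem_insert_of_mem h)
    have hue : ee k ≤ delDeg G D u := by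
      have h1 := humax u0 (by simpa using hu0)
      have h2 := delDeg_anti G (Finset.subset_insert v D) u0
      omega
    have humax' : ∀ w, w ∉ D → w ≠ v → delDeg G D w ≤ delDeg G D u := by
      intro w hw hwv
      apply humax w
      simp only [mem_sdiff, mem_univ, true_and, mem_insert, not_or]
      exact ⟨hwv, hw⟩
    have hge : delDeg G D u + (k + 2) ≤ delDeg G D v := by
      by_contra hlt
      have hle := hvmax' u huD'
      -- choose the deleted neighbours
      set A := univ.filter (fun w => G.Adj v w ∧ w ∉ D) with hA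
      have hAc : A.card = delDeg G D v := by rw [hA]; rfl
      set A' := A.filter (fun w => ¬ (w = u ∨ G.Adj u w)) with hA'
      have hA'c : delDeg G D v ≤ A'.card + 1 := by
        have h1 : (A.filter (fun w => (w = u ∨ G.Adj u w))).card ≤ 1 := by
          rw [Finset.card_le_one]
          intro a ha b hb
          simp only [hA, mem_filter, mem_univ, true_and] at ha hb
          exact near_unique G hG (Ne.symm huv) ha.1.1 ha.2 hb.1.1 hb.2
        have h2 := Finset.card_filter_add_card_filter_not (s := A) (fun w => (w = u ∨ G.Adj u w))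
        rw [← hA'] at h2
        omega
      have hee := ee_ge_two k
      obtain ⟨R, hRA, hRc⟩ := Finset.exists_subset_card_eq
        (s := A') (n := delDeg G D v - delDeg G D u) (by omega)
      have hR : ∀ w ∈ R, G.Adj v w ∧ w ∉ D ∧ w ≠ u ∧ ¬ G.Adj u w := by
        intro w hw
        have := hRA hw
        simp only [hA', hA, mem_filter, mem_univ, true_and, not_or] at this
        exact ⟨this.1.1, this.1.2, this.2.1, this.2.2⟩
      have hdisj : Disjoint D R := by
        rw [Finset.disjoint_left]
        intro w hwD hwR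
        exact (hR w hwR).2.1 hwD
      apply hB (D ∪ R) Finset.subset_union_left
      · rw [Finset.card_union_of_disjoint hdisj, hRc]; omega
      · right
        have hvB : v ∉ D ∪ R := by
          simp only [mem_union, not_or]
          exact ⟨hvD, fun h => (hR v h).1.ne rfl⟩
        have huB : u ∉ D ∪ R := by
          simp only [mem_union, not_or]
          exact ⟨huD', fun h => (hR u h).2.2.1 rfl⟩
        have hdu : delDeg G (D ∪ R) u = delDeg G D u := by
          unfold delDeg
          congr 1
          ext w
          simp only [mem_filter, mem_univ, true_and, mem_union, not_or]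
          constructor
          · rintro ⟨h1, h2, _⟩; exact ⟨h1, h2⟩
          · rintro ⟨h1, h2⟩; exact ⟨h1, h2, fun h => (hR w h).2.2.2 h1⟩
        have hdv : delDeg G (D ∪ R) v = delDeg G D u := by
          have h1 : univ.filter (fun w => G.Adj v w ∧ w ∉ D ∪ R) = A \ R := by
            ext w
            simp only [hA, mem_filter, mem_univ, true_and, mem_union, not_or, mem_sdiff]
            tauto
          have h2 : R ⊆ A := fun w hw => by
            simp only [hA, mem_filter, mem_univ, true_and]
            exact ⟨(hR w hw).1, (hR w hw).2.1⟩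
          unfold delDeg
          rw [h1, Finset.card_sdiff_of_subset h2, hRc, hAc]
          have h3 : (univ.filter (fun w => G.Adj u w ∧ w ∉ D)).card = delDeg G D u := rfl
          omega
        refine ⟨v, u, Ne.symm huv, hvB, huB, by rw [hdu, hdv], ?_⟩
        intro w hw
        rw [hdv]
        by_cases hwv : w = v
        · rw [hwv, hdv]
        · have hwD : w ∉ D := fun h => hw (Finset.mem_union_left _ h)
          exact (delDeg_anti G Finset.subset_union_left w).trans (humax' w hwD hwv)
    have hvee : ee (k + 1) ≤ delDeg G D v := by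
      simp only [ee]; omega
    refine ⟨⟨v, hvD, hvee⟩, ?_⟩
    have := edg_insert G D v hvD
    rw [ss_succ]
    omega

lemma upper (t : ℕ) (G : SimpleGraph V) (hG : G.IsAcyclic) (hc : Fintype.card V ≤ ss t) :
    f G ≤ t := by
  classical
  by_contra hlt
  push Not at hlt
  have hno : ∀ B : Finset V, (∅ : Finset V) ⊆ B → B.card ≤ t → ¬ Equated G B := by
    intro B _ hB hE
    have : f G ≤ B.card := Nat.sInf_le ⟨B, rfl, hE⟩
    omega
  obtain ⟨⟨v, _, _⟩, h⟩ := main_ind G hG t t ∅ (by simp) hno
  have : Nonempty V := ⟨v⟩
  obtain ⟨T, hT1, _, hT2⟩ := (SimpleGraph.connected_top (V := V)).exists_isTree_le_of_le_of_isAcyclic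
    le_top hG
  have hTc := hT2.card_edgeFinset
  have h3 : edg G ∅ ≤ T.edgeFinset.card := by
    unfold edg
    apply Finset.card_le_card
    intro e he
    simp only [mem_filter, mem_univ, true_and] at he
    rw [SimpleGraph.mem_edgeFinset]
    exact SimpleGraph.edgeSet_mono hT1 he.1
  omega

end upper

section lower

lemma acyclic_of_rank {V : Type} (G : SimpleGraph V) (r : V → ℕ)
    (hne : ∀ x y, G.Adj x y → r x ≠ r y)
    (hu : ∀ x y z, G.Adj x y → G.Adj x z → r y < r x → r z < r x → y = z) : G.IsAcyclic := by
  classical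
  intro v c hc
  obtain ⟨x, hx, hmax⟩ := Finset.exists_max_image c.support.toFinset r
    ⟨v, by simp⟩
  have hx' : x ∈ c.support := by simpa using hx
  have hc' : (c.rotate x hx').IsCycle := by simpa using hc
  have hnil : ¬ (c.rotate x hx').Nil := hc'.not_nil
  have hmem : ∀ y ∈ (c.rotate x hx').support, r y ≤ r x := by
    intro y hy
    rw [SimpleGraph.Walk.mem_support_rotate_iff] at hy
    exact hmax y (by simpa using hy)
  have ha := (c.rotate x hx').adj_snd hnil
  have hb := ((c.rotate x hx').adj_penultimate hnil).symm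
  have h1 : r (c.rotate x hx').snd ≤ r x := hmem _ (SimpleGraph.Walk.getVert_mem_support _ _)
  have h2 : r (c.rotate x hx').penultimate ≤ r x :=
    hmem _ (SimpleGraph.Walk.getVert_mem_support _ _)
  have h3 := hne _ _ ha
  have h4 := hne _ _ hb
  exact hc'.snd_ne_penultimate (hu x _ _ ha hb (by omega) (by omega))

lemma delDeg_le_card {V : Type} [Fintype V] (G : SimpleGraph V) (B : Finset V) (v : V)
    (S : Finset V) (h : ∀ w, G.Adj v w → w ∉ B → w ∈ S) : delDeg G B v ≤ S.card := by
  classical
  unfold delDeg
  apply Finset.card_le_card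
  intro w hw
  simp only [mem_filter, mem_univ, true_and] at hw
  exact h w hw.1 hw.2

lemma card_le_delDeg {V ι : Type} [Fintype V] (G : SimpleGraph V) (B : Finset V) (v : V)
    (S : Finset ι) (g : ι → V) (hg : Function.Injective g)
    (h : ∀ j ∈ S, G.Adj v (g j) ∧ g j ∉ B) : S.card ≤ delDeg G B v := by
  classical
  unfold delDeg
  rw [← Finset.card_image_of_injective S hg]
  apply Finset.card_le_card
  intro w hw
  rw [Finset.mem_image] at hw
  obtain ⟨j, hj, rfl⟩ := hw
  simp only [mem_filter, mem_univ, true_and]
  exact h j hj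

lemma exists_of_delDeg_pos {V : Type} [Fintype V] (G : SimpleGraph V) (B : Finset V) (v : V)
    (h : 0 < delDeg G B v) : ∃ w, G.Adj v w ∧ w ∉ B := by
  unfold delDeg at h
  rw [Finset.card_pos] at h
  obtain ⟨w, hw⟩ := h
  simp only [mem_filter, mem_univ, true_and] at hw
  exact ⟨w, hw⟩

lemma equated_cases {V : Type} [Fintype V] {G : SimpleGraph V} {B : Finset V}
    (h : Equated G B) : (∀ u v : V, u ∉ B → v ∉ B → u = v) ∨
    ∃ u v : V, u ≠ v ∧ u ∉ B ∧ v ∉ B ∧ delDeg G B u = delDeg G B v ∧
      ∀ w : V, w ∉ B → delDeg G B w ≤ delDeg G B u := by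
  rcases h with h | h
  · left
    intro u v hu hv
    have h1 := Nat.le_of_lt_succ h
    rw [Finset.card_le_one] at h1
    exact h1 u (by simpa using hu) v (by simpa using hv)
  · exact Or.inr h

lemma equated_univ {V : Type} [Fintype V] (G : SimpleGraph V) :
    Equated G (univ : Finset V) := by
  classical
  left
  have h : ((univ : Finset V) \ univ).card < 2 := by simp
  convert h

/-- vertices of the extremal tree: a centre, and for each `k ≤ t` a hub with `ee k - 1` leaves -/
abbrev W (t : ℕ) : Type := Option (Σ k : Fin (t + 1), Fin (ee k))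

/-- `x` is a child of `y` -/
def child (t : ℕ) : W t → W t → Prop
  | some ⟨_, j⟩, none => j.val = 0
  | some ⟨k, j⟩, some ⟨k', j'⟩ => k = k' ∧ j.val ≠ 0 ∧ j'.val = 0
  | none, _ => False

/-- rank -/
def rk (t : ℕ) : W t → ℕ
  | none => 0
  | some ⟨_, j⟩ => if j.val = 0 then 1 else 2

lemma child_rk (t : ℕ) (x y : W t) (h : child t x y) : rk t y < rk t x := by
  rcases x with _ | ⟨k, j⟩ <;> rcases y with _ | ⟨k', j'⟩
  · exact h.elim
  · exact h.elim
  · have h' : j.val = 0 := h
    simp [rk, h']
  · obtain ⟨_, h2, h3⟩ : k = k' ∧ j.val ≠ 0 ∧ j'.val = 0 := h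
    simp [rk, h2, h3]

lemma child_unique (t : ℕ) (x y z : W t) (h : child t x y) (h' : child t x z) : y = z := by
  rcases x with _ | ⟨k, j⟩
  · exact h.elim
  · rcases y with _ | ⟨k', j'⟩ <;> rcases z with _ | ⟨k'', j''⟩
    · rfl
    · have h1 : j.val = 0 := h
      have h2 : k = k'' ∧ j.val ≠ 0 ∧ j''.val = 0 := h'
      exact absurd h1 h2.2.1
    · have h1 : j.val = 0 := h'
      have h2 : k = k' ∧ j.val ≠ 0 ∧ j'.val = 0 := h
      exact absurd h1 h2.2.1
    · obtain ⟨rfl, _, h3⟩ : k = k' ∧ j.val ≠ 0 ∧ j'.val = 0 := h
      obtain ⟨rfl, _, h4⟩ : k = k'' ∧ j.val ≠ 0 ∧ j''.val = 0 := h'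
      have : j' = j'' := Fin.ext (by rw [h3, h4])
      rw [this]

/-- the extremal tree -/
def T (t : ℕ) : SimpleGraph (W t) where
  Adj x y := child t x y ∨ child t y x
  symm := ⟨fun _ _ h => h.symm⟩
  loopless := ⟨fun x h => by
    have := child_rk t x x (h.elim id id)
    omega⟩

lemma T_acyclic (t : ℕ) : (T t).IsAcyclic := by
  apply acyclic_of_rank (T t) (rk t)
  · intro x y h
    rcases h with h | h
    · have := child_rk t x y h; omega
    · have := child_rk t y x h; omega
  · intro x y z hxy hxz h1 h2
    have h3 : child t x y := by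
      rcases hxy with h | h
      · exact h
      · have := child_rk t y x h; omega
    have h4 : child t x z := by
      rcases hxz with h | h
      · exact h
      · have := child_rk t z x h; omega
    exact child_unique t x y z h3 h4

lemma card_W (t : ℕ) : Fintype.card (W t) = ss t + 1 := by
  simp only [W, Fintype.card_option, Fintype.card_sigma, Fintype.card_fin, ss]
  rw [Finset.sum_range]

/-- the hub with index `k` -/
def hub (t : ℕ) (k : Fin (t + 1)) : W t := some ⟨k, ⟨0, by have := ee_ge_two k; omega⟩⟩

/-- the neighbours of the hub -/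
def nb (t : ℕ) (k : Fin (t + 1)) (j : Fin (ee k)) : W t :=
  if j.val = 0 then none else some ⟨k, j⟩

lemma nb_inj (t : ℕ) (k : Fin (t + 1)) : Function.Injective (nb t k) := by
  intro a b h
  unfold nb at h
  by_cases ha : a.val = 0
  · by_cases hb : b.val = 0
    · exact Fin.ext (by rw [ha, hb])
    · rw [if_pos ha, if_neg hb] at h; exact absurd h (by simp)
  · by_cases hb : b.val = 0
    · rw [if_neg ha, if_pos hb] at h; exact absurd h (by simp)
    · rw [if_neg ha, if_neg hb] at h
      simpa using h

lemma adj_hub (t : ℕ) (k : Fin (t + 1)) (w : W t) :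
    (T t).Adj (hub t k) w ↔ ∃ j, nb t k j = w := by
  constructor
  · intro h
    rcases h with h | h
    · rcases w with _ | ⟨k', j'⟩
      · exact ⟨⟨0, by have := ee_ge_two k; omega⟩, by simp [nb]⟩
      · have h' : k = k' ∧ (0 : ℕ) ≠ 0 ∧ j'.val = 0 := h
        exact absurd rfl h'.2.1
    · rcases w with _ | ⟨k', j'⟩
      · exact h.elim
      · obtain ⟨rfl, h2, _⟩ : k' = k ∧ j'.val ≠ 0 ∧ (0 : ℕ) = 0 := h
        exact ⟨j', by simp [nb, h2]⟩
  · rintro ⟨j, rfl⟩
    by_cases hj : j.val = 0
    · left
      simp only [nb, if_pos hj]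
      show (0 : ℕ) = 0
      rfl
    · right
      simp only [nb, if_neg hj]
      exact ⟨rfl, hj, rfl⟩

lemma nb_ne_hub (t : ℕ) (k : Fin (t + 1)) (j : Fin (ee k)) (k' : Fin (t + 1)) :
    nb t k j ≠ hub t k' := by
  unfold nb hub
  by_cases hj : j.val = 0
  · simp [hj]
  · rw [if_neg hj]
    intro h
    simp only [Option.some.injEq, Sigma.mk.injEq] at h
    obtain ⟨rfl, h2⟩ := h
    have := eq_of_heq h2
    exact hj (by rw [this])

lemma hub_inj (t : ℕ) : Function.Injective (hub t) := by
  intro a b h
  unfold hub at h
  simp only [Option.some.injEq, Sigma.mk.injEq] at h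
  exact h.1

lemma hub_le (t : ℕ) (B : Finset (W t)) (k : Fin (t + 1)) :
    delDeg (T t) B (hub t k) ≤ ee k := by
  have h := delDeg_le_card (T t) B (hub t k) (univ.image (nb t k)) (by
    intro w hw _
    rw [adj_hub] at hw
    obtain ⟨j, rfl⟩ := hw
    exact Finset.mem_image_of_mem _ (Finset.mem_univ j))
  refine h.trans (Finset.card_image_le.trans ?_)
  simp

lemma hub_ge (t : ℕ) (B : Finset (W t)) (k : Fin (t + 1)) :
    ee k ≤ delDeg (T t) B (hub t k) + (univ.filter (fun j => nb t k j ∈ B)).card := by
  have h := card_le_delDeg (T t) B (hub t k) (univ.filter (fun j => ¬ nb t k j ∈ B)) (nb t k)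
    (nb_inj t k) (by
      intro j hj
      simp only [mem_filter, mem_univ, true_and] at hj
      exact ⟨(adj_hub t k _).2 ⟨j, rfl⟩, hj⟩)
  have h2 := Finset.card_filter_add_card_filter_not (s := (univ : Finset (Fin (ee k))))
    (fun j => nb t k j ∈ B)
  rw [Finset.card_univ, Fintype.card_fin] at h2
  omega

lemma ee_gap (a b : ℕ) (h : a < b) : ee a + (b + 1) ≤ ee b := by
  have h1 := two_ee a
  have h2 := two_ee b
  obtain ⟨c, rfl⟩ := Nat.exists_eq_add_of_lt h
  nlinarith [Nat.zero_le (a * c), Nat.zero_le (c * c)]

lemma not_equated (t : ℕ) (B : Finset (W t)) (hB : B.card ≤ t) : ¬ Equated (T t) B := by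
  -- some hub is not deleted
  have hex : (univ.filter (fun k : Fin (t + 1) => hub t k ∉ B)).Nonempty := by
    by_contra hno
    rw [Finset.not_nonempty_iff_eq_empty, Finset.filter_eq_empty_iff] at hno
    have h1 : (univ : Finset (Fin (t + 1))).image (hub t) ⊆ B := by
      intro w hw
      rw [Finset.mem_image] at hw
      obtain ⟨k, _, rfl⟩ := hw
      simpa using hno (Finset.mem_univ k)
    have h2 := Finset.card_le_card h1
    rw [Finset.card_image_of_injective _ (hub_inj t)] at h2
    simp at h2
    omega
  obtain ⟨K, hK, hKmax⟩ := Finset.exists_max_image _ (fun k : Fin (t + 1) => k.val) hex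
  simp only [mem_filter, mem_univ, true_and] at hK hKmax
  have hcount : (univ.filter (fun j => nb t K j ∈ B)).card ≤ K.val := by
    have h1 : ((univ.filter (fun j => nb t K j ∈ B)).image (nb t K)) ∪
        ((Finset.Ioi K).image (hub t)) ⊆ B := by
      intro w hw
      rw [Finset.mem_union] at hw
      rcases hw with hw | hw
      · rw [Finset.mem_image] at hw
        obtain ⟨j, hj, rfl⟩ := hw
        simpa using hj
      · rw [Finset.mem_image] at hw
        obtain ⟨k, hk, rfl⟩ := hw
        by_contra hnot
        have := hKmax k hnot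
        rw [Finset.mem_Ioi] at hk
        have hk' : K.val < k.val := hk
        omega
    have h2 : Disjoint ((univ.filter (fun j => nb t K j ∈ B)).image (nb t K))
        ((Finset.Ioi K).image (hub t)) := by
      rw [Finset.disjoint_left]
      intro w hw hw'
      rw [Finset.mem_image] at hw hw'
      obtain ⟨j, _, rfl⟩ := hw
      obtain ⟨k, _, hk⟩ := hw'
      exact nb_ne_hub t K j k hk.symm
    have h3 := Finset.card_le_card h1
    rw [Finset.card_union_of_disjoint h2, Finset.card_image_of_injective _ (nb_inj t K),
      Finset.card_image_of_injective _ (hub_inj t), Fin.card_Ioi] at h3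
    have := K.isLt
    omega
  have hdeg := hub_ge t B K
  have h2e := two_ee K.val
  have hbig : K.val + 2 ≤ delDeg (T t) B (hub t K) := by
    have h1 : 2 * (K.val + 2) + 2 * K.val ≤ 2 * ee K.val := by
      rw [h2e]
      rcases Nat.eq_zero_or_pos K.val with h0 | h0
      · rw [h0]; norm_num
      · nlinarith
    omega
  have hsmall : ∀ z : W t, z ∉ B → z ≠ hub t K → delDeg (T t) B z < delDeg (T t) B (hub t K) := by
    intro z hz hzK
    rcases z with _ | ⟨k, j⟩
    · -- the centre
      have h1 : delDeg (T t) B none ≤ K.val + 1 := by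
        have h3 := delDeg_le_card (T t) B none ((Finset.Iic K).image (hub t)) (by
          intro w hw1 hw2
          rcases w with _ | ⟨k, j⟩
          · rcases hw1 with h | h <;> exact h.elim
          · have hj : j.val = 0 := by
              rcases hw1 with h | h
              · exact h.elim
              · exact h
            have hwk : (some ⟨k, j⟩ : W t) = hub t k := by
              unfold hub
              congr 2
              exact Fin.ext hj
            rw [hwk, Finset.mem_image]
            refine ⟨k, ?_, rfl⟩
            rw [Finset.mem_Iic]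
            exact hKmax k (by rw [← hwk]; exact hw2))
        rw [Finset.card_image_of_injective _ (hub_inj t), Fin.card_Iic] at h3
        exact h3
      omega
    · by_cases hj : j.val = 0
      · have hwk : (some ⟨k, j⟩ : W t) = hub t k := by
          unfold hub
          congr 2
          exact Fin.ext hj
        rw [hwk] at hz hzK ⊢
        have hle := hKmax k hz
        have hne : k ≠ K := fun h => hzK (by rw [h])
        have hlt : k.val < K.val := lt_of_le_of_ne hle (fun h => hne (Fin.ext h))
        have hgap := ee_gap k.val K.val hlt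
        have hd := hub_le t B k
        omega
      · have h1 : delDeg (T t) B (some ⟨k, j⟩) ≤ 1 := by
          have h3 := delDeg_le_card (T t) B (some ⟨k, j⟩) {hub t k} (by
            intro w hw1 _
            rw [Finset.mem_singleton]
            rcases w with _ | ⟨k', j'⟩
            · rcases hw1 with h | h
              · exact absurd h hj
              · exact h.elim
            · rcases hw1 with h | h
              · obtain ⟨rfl, _, h3⟩ : k = k' ∧ j.val ≠ 0 ∧ j'.val = 0 := h
                unfold hub
                congr 2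
                exact Fin.ext h3
              · have h' : k' = k ∧ j'.val ≠ 0 ∧ j.val = 0 := h
                exact absurd h'.2.2 hj)
          rw [Finset.card_singleton] at h3
          exact h3
        omega
  intro hE
  rcases equated_cases hE with hE | ⟨u, v, huv, hu, hv, heq, hmax⟩
  · obtain ⟨w, hw1, hw2⟩ := exists_of_delDeg_pos (T t) B (hub t K) (by omega)
    exact hw1.ne (hE _ _ hK hw2)
  · have hKu := hmax (hub t K) hK
    by_cases h1 : u = hub t K
    · have h2 : v ≠ hub t K := fun h => huv (by rw [h1, h])
      have := hsmall v hv h2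
      rw [← heq] at this
      omega
    · have := hsmall u hu h1
      omega

lemma lower (t : ℕ) : t + 1 ≤ f (T t) := by
  unfold f
  apply le_csInf
  · exact ⟨(univ : Finset (W t)).card, univ, rfl, equated_univ _⟩
  · rintro k ⟨B, rfl, hE⟩
    by_contra hlt
    exact not_equated t B (by omega) hE

end lower

/-- With `N(t) = (t^3 + 6 t^2 + 17 t + 12) / 6`: for every `t ≥ 1`, every forest on at most `N(t)`
vertices satisfies `f ≤ t`, and there is a forest on exactly `N(t) + 1` vertices with
`f ≥ t + 1`.  (`6 N(t) = t^3 + 6 t^2 + 17 t + 12`; no rounding is involved.) -/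
theorem result : ∀ t : ℕ, 1 ≤ t →
    (∀ (V : Type) [Fintype V] (F : SimpleGraph V), F.IsAcyclic →
      6 * Fintype.card V ≤ t ^ 3 + 6 * t ^ 2 + 17 * t + 12 → f F ≤ t) ∧
    (∃ (V : Type) (_ : Fintype V) (F : SimpleGraph V), F.IsAcyclic ∧
      6 * Fintype.card V = (t ^ 3 + 6 * t ^ 2 + 17 * t + 12) + 6 ∧ t + 1 ≤ f F) := by
  intro t _
  have h6 := six_ss t
  refine ⟨?_, ?_⟩
  · intro V _ F hF hc
    exact upper t F hF (by omega)
  · exact ⟨W t, inferInstance, T t, T_acyclic t, by rw [card_W]; omega, lower t⟩

end Pool.Agent.Results.MP_fe24f9_co.TwoMaxDegreeForest
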